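import Pool.Agent.Helper9.STP.Final

set_option autoImplicit false

/-!
# Superlinear extension complexity of spanning tree polytopes on sparse classes (MP_3cffc3_co)

There is a class of connected graphs of bounded maximum degree, with bounded expansion, bounded
density and strongly sublinear (square root) separators on which
`xc(STP(G)) ≥ c |V(G)| √(log |V(G)|)`; so `xc(STP(G)) ∈ O(|V(G)|)` fails for each of the four
properties (a), (b), (c), (d) of the problem.

The class consists of the comb graphs: every vertex of the complete graph `K_N` is replaced by a
path with `N` vertices, every edge `ij` by a path of length 3 joining the `j`-th vertex of the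
path `i` to the `i`-th vertex of the path `j` (`2 N²` vertices, maximum degree 3).  These graphs
look like a two-dimensional grid, hence the separators.  A factorisation argument gives at least
`c N² √(log N)` rectangles in every rectangle cover of the slack matrix of their spanning tree
polytope (double stars of `K_N` versus vertex sets); the main step is a multi-scale argument with
random vertex sets, files `Inner`, `Inner2`, `Inner3`, `Rect`, `Rect2` of
`Pool/Agent/Helper9/STP`.

The definitions are in `Pool/Agent/Helper9/STP/Defs.lean`.
-/

namespace Pool.Agent.Results.MP_3cffc3_co.SparseSuperlinear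

open Pool.Agent.Helper9.SpTree

theorem result : ∃ 𝒢 : GraphClass,
    SublinearSeparators 𝒢 ∧ BoundedExpansion 𝒢 ∧ BoundedDegree 𝒢 ∧ BoundedDensity 𝒢 ∧
    (∀ n G, 𝒢.mem n G → G.Connected) ∧ (∀ m : ℕ, ∃ n G, m ≤ n ∧ 𝒢.mem n G) ∧
    (∃ c : ℝ, 0 < c ∧ ∀ n G r, 𝒢.mem n G → HasExt (STP G) r →
      c * (n * Real.sqrt (Real.log n)) ≤ r) ∧
    ¬ LinearXC 𝒢 :=
  result_aux

end Pool.Agent.Results.MP_3cffc3_co.SparseSuperlinear
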